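import Pool.Agent.Work.MP_4eb3f9_an_helper80.B1

/-!
# MP_4eb3f9_an, block B2: the determinant of the weighted Gram matrix
-/

open Complex MeasureTheory Filter Topology Set Matrix
open scoped ContDiff Real ComplexOrder

namespace CMA
namespace GramDet

/-- Lebesgue measure on the disc of radius `2`. -/
noncomputable abbrev μ2 : Measure ℂ := volume.restrict (Metric.closedBall (0 : ℂ) 2)

lemma μ2_real : (μ2).real univ = 4 * π := by
  simp [Measure.real, Complex.volume_closedBall]
  norm_num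

section PosDef

variable {h : ℂ → ℝ} (n N : ℕ)

lemma cont_weight (hc : Continuous h) : Continuous (fun z : ℂ => (Real.exp (2 * n * h z) : ℂ)) := by
  apply Complex.continuous_ofReal.comp
  fun_prop

lemma cont_entry (hc : Continuous h) (i j : ℕ) :
    Continuous (fun z : ℂ => (starRingEnd ℂ z) ^ i * z ^ j * (Real.exp (2 * n * h z) : ℂ)) := by
  have := cont_weight n hc
  have hs : Continuous (fun z : ℂ => starRingEnd ℂ z) := Complex.continuous_conj
  fun_prop

lemma int_of_cont {f : ℂ → ℂ} (hf : Continuous f) : Integrable f μ2 :=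
  (hf.continuousOn.integrableOn_compact (isCompact_closedBall _ _))

lemma quad (hc : Continuous h) (x : Fin N → ℂ) :
    star x ⬝ᵥ (gram N n h *ᵥ x) =
      ((∫ z in Metric.closedBall (0 : ℂ) 2,
        ‖∑ j : Fin N, x j * z ^ (j : ℕ)‖ ^ 2 * Real.exp (2 * n * h z) : ℝ) : ℂ) := by
  rw [← integral_complex_ofReal]
  simp only [dotProduct, mulVec, gram, Finset.mul_sum]
  have e1 : ∀ i j : Fin N, star x i * ((∫ z in Metric.closedBall (0 : ℂ) 2,
      (starRingEnd ℂ z) ^ (i : ℕ) * z ^ (j : ℕ) * (Real.exp (2 * n * h z) : ℂ)) * x j) =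
      ∫ z in Metric.closedBall (0 : ℂ) 2, (star x i * x j) *
        ((starRingEnd ℂ z) ^ (i : ℕ) * z ^ (j : ℕ) * (Real.exp (2 * n * h z) : ℂ)) := by
    intro i j
    rw [integral_const_mul]
    ring
  simp only [e1]
  have hi : ∀ i j : Fin N, Integrable (fun z : ℂ => (star x i * x j) *
        ((starRingEnd ℂ z) ^ (i : ℕ) * z ^ (j : ℕ) * (Real.exp (2 * n * h z) : ℂ))) μ2 :=
    fun i j => (int_of_cont (cont_entry n hc i j)).const_mul _
  rw [Finset.sum_congr rfl fun i _ => (integral_finsetSum _ fun j _ => hi i j).symm,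
    ← integral_finsetSum _ fun i _ => integrable_finsetSum _ fun j _ => hi i j]
  congr 1
  ext z
  have e2 : ((‖∑ j : Fin N, x j * z ^ (j : ℕ)‖ ^ 2 : ℝ) : ℂ) =
      ∑ i : Fin N, ∑ j : Fin N, (star x i * x j) * ((starRingEnd ℂ z) ^ (i : ℕ) * z ^ (j : ℕ)) := by
    rw [← Complex.normSq_eq_norm_sq, Complex.normSq_eq_conj_mul_self, map_sum, Finset.sum_mul_sum]
    apply Finset.sum_congr rfl; intro i _
    apply Finset.sum_congr rfl; intro j _
    simp only [map_mul, map_pow, Pi.star_apply, RCLike.star_def]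
    ring
  rw [Complex.ofReal_mul, e2, Finset.sum_mul]
  apply Finset.sum_congr rfl; intro i _
  rw [Finset.sum_mul]
  apply Finset.sum_congr rfl; intro j _
  ring

lemma gram_herm (n N : ℕ) (h : ℂ → ℝ) : (gram N n h).IsHermitian := by
  apply Matrix.IsHermitian.ext
  intro i j
  simp only [gram]
  rw [RCLike.star_def, ← integral_conj]
  congr 1
  ext z
  simp only [map_mul, map_pow, Complex.conj_conj, Complex.conj_ofReal]
  ring

lemma pos_int (hc : Continuous h) {x : Fin N → ℂ} (hx : x ≠ 0) :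
    0 < ∫ z in Metric.closedBall (0 : ℂ) 2,
        ‖∑ j : Fin N, x j * z ^ (j : ℕ)‖ ^ 2 * Real.exp (2 * n * h z) := by
  have hcont : Continuous (fun z : ℂ => ‖∑ j : Fin N, x j * z ^ (j : ℕ)‖ ^ 2 *
      Real.exp (2 * n * h z)) := by fun_prop
  rw [setIntegral_pos_iff_support_of_nonneg_ae]
  · -- a point where the polynomial does not vanish
    obtain ⟨z₀, hz₀, hp⟩ : ∃ z₀ ∈ Metric.ball (0 : ℂ) 2, ∑ j : Fin N, x j * z₀ ^ (j : ℕ) ≠ 0 := by
      by_contra hcon
      push Not at hcon
      apply hx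
      let P : Polynomial ℂ := ∑ j : Fin N, Polynomial.C (x j) * Polynomial.X ^ (j : ℕ)
      have hev : ∀ z, P.eval z = ∑ j : Fin N, x j * z ^ (j : ℕ) := by
        intro z
        simp [P, Polynomial.eval_finsetSum]
      have hP : P = 0 := by
        apply Polynomial.eq_zero_of_infinite_isRoot
        apply (infinite_of_mem_nhds (0 : ℂ) (Metric.ball_mem_nhds (0 : ℂ) (by norm_num : (0:ℝ) < 2))).mono
        intro z hz
        show P.eval z = 0
        rw [hev]
        exact hcon z hz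
      ext j
      have : P.coeff (j : ℕ) = x j := by
        simp only [P, Polynomial.finsetSum_coeff, Polynomial.coeff_C_mul, Polynomial.coeff_X_pow]
        simp [Fin.ext_iff.symm]
      rw [← this, hP]
      simp
    set S : Set ℂ := Metric.ball (0 : ℂ) 2 ∩ {z | ∑ j : Fin N, x j * z ^ (j : ℕ) ≠ 0} with hS
    have hSo : IsOpen S := by
      apply Metric.isOpen_ball.inter
      apply isOpen_ne_fun
      · fun_prop
      · fun_prop
    have hSp : 0 < volume S := hSo.measure_pos volume ⟨z₀, hz₀, hp⟩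
    refine hSp.trans_le (measure_mono ?_)
    rintro z ⟨hz1, hz2⟩
    refine ⟨?_, Metric.ball_subset_closedBall hz1⟩
    simp only [Function.mem_support]
    have : 0 < ‖∑ j : Fin N, x j * z ^ (j : ℕ)‖ := norm_pos_iff.2 hz2
    positivity
  · apply ae_of_all
    intro z
    positivity
  · exact hcont.continuousOn.integrableOn_compact (isCompact_closedBall _ _)

lemma gram_posDef (hc : Continuous h) : (gram N n h).PosDef := by
  apply Matrix.PosDef.of_dotProduct_mulVec_pos (gram_herm n N h)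
  intro x hx
  rw [quad n N hc x]
  exact_mod_cast pos_int n N hc hx

end PosDef

section Det

variable {h : ℂ → ℝ} (n N : ℕ)

lemma det_eq (hc : Continuous h) :
    (gram N n h).det = ∫ x : Fin N → ℂ, (∏ i : Fin N, (starRingEnd ℂ (x i)) ^ (i : ℕ) *
      (Real.exp (2 * n * h (x i)) : ℂ)) * (vandermonde x).det ∂(Measure.pi fun _ => μ2) := by
  have hi : ∀ σ : Equiv.Perm (Fin N), Integrable (fun x : Fin N → ℂ => ∏ i : Fin N,
      ((starRingEnd ℂ (x i)) ^ (i : ℕ) * (x i) ^ (σ i : ℕ) * (Real.exp (2 * n * h (x i)) : ℂ)))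
      (Measure.pi fun _ => μ2) := by
    intro σ
    exact Integrable.fintype_prod (f := fun (i : Fin N) (z : ℂ) => (starRingEnd ℂ z) ^ (i : ℕ) *
      z ^ (σ i : ℕ) * (Real.exp (2 * n * h z) : ℂ)) (fun i => int_of_cont (cont_entry n hc i (σ i)))
  rw [← Matrix.det_transpose, Matrix.det_apply']
  have e1 : ∀ σ : Equiv.Perm (Fin N), ∏ i, (gram N n h)ᵀ (σ i) i =
      ∫ x : Fin N → ℂ, ∏ i : Fin N, ((starRingEnd ℂ (x i)) ^ (i : ℕ) * (x i) ^ (σ i : ℕ) *
        (Real.exp (2 * n * h (x i)) : ℂ)) ∂(Measure.pi fun _ => μ2) := by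
    intro σ
    rw [integral_fintype_prod_eq_prod (f := fun (i : Fin N) (z : ℂ) => (starRingEnd ℂ z) ^ (i : ℕ) *
      z ^ (σ i : ℕ) * (Real.exp (2 * n * h z) : ℂ))]
    rfl
  simp only [e1]
  have e2 : ∀ σ : Equiv.Perm (Fin N), ((Equiv.Perm.sign σ : ℤ) : ℂ) *
      ∫ x : Fin N → ℂ, ∏ i : Fin N, ((starRingEnd ℂ (x i)) ^ (i : ℕ) * (x i) ^ (σ i : ℕ) *
        (Real.exp (2 * n * h (x i)) : ℂ)) ∂(Measure.pi fun _ => μ2) =
      ∫ x : Fin N → ℂ, ((Equiv.Perm.sign σ : ℤ) : ℂ) *
        ∏ i : Fin N, ((starRingEnd ℂ (x i)) ^ (i : ℕ) * (x i) ^ (σ i : ℕ) *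
        (Real.exp (2 * n * h (x i)) : ℂ)) ∂(Measure.pi fun _ => μ2) := by
    intro σ
    rw [integral_const_mul]
  simp only [e2]
  rw [← integral_finsetSum _ fun σ _ => (hi σ).const_mul _]
  congr 1
  ext x
  rw [← Matrix.det_transpose (vandermonde x), Matrix.det_apply', Finset.mul_sum]
  apply Finset.sum_congr rfl
  intro σ _
  simp only [Matrix.transpose_apply, vandermonde_apply]
  rw [mul_left_comm, ← Finset.prod_mul_distrib]
  congr 1
  apply Finset.prod_congr rfl
  intro i _
  ring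

lemma norm_vandermonde {x : Fin N → ℂ} (hinj : Function.Injective x) :
    ‖(vandermonde x).det‖ =
      Real.exp (∑ i, ∑ k ∈ Finset.univ.filter (fun k => i < k), Real.log ‖x i - x k‖) := by
  rw [det_vandermonde, norm_prod, Real.exp_sum]
  apply Finset.prod_congr rfl
  intro i _
  rw [norm_prod, Real.exp_sum]
  have : Finset.Ioi i = Finset.univ.filter (fun k => i < k) := by
    ext k; simp
  rw [this]
  apply Finset.prod_congr rfl
  intro k hk
  have hik : i < k := (Finset.mem_filter.1 hk).2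
  have hp : 0 < ‖x i - x k‖ := norm_pos_iff.2 (sub_ne_zero.2 (fun e => hik.ne (hinj e)))
  rw [Real.exp_log hp, norm_sub_rev]

lemma det_vandermonde_zero {x : Fin N → ℂ} (hinj : ¬ Function.Injective x) :
    (vandermonde x).det = 0 := by
  by_contra hcon
  exact hinj (det_vandermonde_ne_zero_iff.1 hcon)

end Det

end GramDet

theorem stmt_B2 : Stmt_B2 := by
  refine ⟨fun h n N hc => GramDet.gram_posDef n N hc, ?_⟩
  obtain ⟨C, hC0, hC⟩ := stmt_B1
  refine ⟨C + 20, by positivity, ?_⟩
  intro h Λ n N hh h0 hL hΛ hn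
  have hc : Continuous h := hh.continuous
  have hpd := GramDet.gram_posDef n N hc
  have hdet : 0 < (gram N n h).det := hpd.det_pos
  have hdre : 0 < (gram N n h).det.re := by
    have := (Complex.lt_def.1 hdet).1
    simpa using this
  set Bd : ℝ := C * N ^ 2 + C * n ^ 2 * dirE h + C * N * (1 + Real.log n + Λ) with hBd
  have hnorm : ‖(gram N n h).det‖ ≤ 2 ^ (N ^ 2) * Real.exp Bd * (4 * π) ^ N := by
    rw [GramDet.det_eq n N hc]
    have hmu : (Measure.pi fun _ : Fin N => GramDet.μ2).real univ = (4 * π) ^ N := by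
      rw [Measure.real, Measure.pi_univ, ENNReal.toReal_prod]
      have := GramDet.μ2_real
      rw [Measure.real] at this
      simp only [this, Finset.prod_const, Finset.card_univ, Fintype.card_fin]
    rw [← hmu]
    have : IsFiniteMeasure GramDet.μ2 := ⟨by simp [Complex.volume_closedBall, ENNReal.mul_lt_top]⟩
    apply norm_integral_le_of_norm_le_const
    have hae : ∀ᵐ x : Fin N → ℂ ∂(Measure.pi fun _ => GramDet.μ2), ∀ i, ‖x i‖ ≤ 2 := by
      rw [ae_all_iff]
      intro i
      have h1 : ∀ᵐ y : ℂ ∂GramDet.μ2, ‖y‖ ≤ 2 := by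
        filter_upwards [ae_restrict_mem measurableSet_closedBall] with y hy
        simpa using hy
      exact (Measure.tendsto_eval_ae_ae (μ := fun _ : Fin N => GramDet.μ2) (i := i)).eventually h1
    filter_upwards [hae] with x hx
    by_cases hinj : Function.Injective x
    swap
    · rw [GramDet.det_vandermonde_zero N hinj, mul_zero, norm_zero]
      positivity
    rw [norm_mul, GramDet.norm_vandermonde N hinj, norm_prod]
    have hb1 := hC h Λ n N x hh h0 hL hΛ hn hx hinj
    have hb2 : ∏ i : Fin N, ‖(starRingEnd ℂ (x i)) ^ (i : ℕ) * (Real.exp (2 * n * h (x i)) : ℂ)‖ ≤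
        2 ^ (N ^ 2) * Real.exp (2 * n * ∑ i, h (x i)) := by
      have e3 : (2 : ℝ) ^ (N ^ 2) = ∏ _i : Fin N, 2 ^ N := by
        rw [Finset.prod_const, Finset.card_univ, Fintype.card_fin, ← pow_mul, sq]
      rw [e3, Finset.mul_sum, Real.exp_sum, ← Finset.prod_mul_distrib]
      apply Finset.prod_le_prod
      · intro i _; positivity
      · intro i _
        rw [norm_mul, norm_pow, RCLike.norm_conj, Complex.norm_real, Real.norm_eq_abs,
          abs_of_pos (Real.exp_pos _)]
        gcongr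
        calc ‖x i‖ ^ (i : ℕ) ≤ 2 ^ (i : ℕ) := by gcongr; exact hx i
          _ ≤ 2 ^ N := pow_le_pow_right₀ (by norm_num) i.2.le
    calc (∏ i : Fin N, ‖(starRingEnd ℂ (x i)) ^ (i : ℕ) * (Real.exp (2 * n * h (x i)) : ℂ)‖) *
          Real.exp (∑ i, ∑ k ∈ Finset.univ.filter (fun k => i < k), Real.log ‖x i - x k‖)
        ≤ (2 ^ (N ^ 2) * Real.exp (2 * n * ∑ i, h (x i))) *
          Real.exp (∑ i, ∑ k ∈ Finset.univ.filter (fun k => i < k), Real.log ‖x i - x k‖) := by
          gcongr
      _ = 2 ^ (N ^ 2) * Real.exp (2 * n * ∑ i, h (x i) +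
          ∑ i, ∑ k ∈ Finset.univ.filter (fun k => i < k), Real.log ‖x i - x k‖) := by
          rw [mul_assoc, Real.exp_add]
      _ ≤ 2 ^ (N ^ 2) * Real.exp Bd := by
          gcongr
  have hlog : Real.log (gram N n h).det.re ≤ Real.log (2 ^ (N ^ 2) * Real.exp Bd * (4 * π) ^ N) :=
    Real.log_le_log hdre ((Complex.re_le_norm _).trans hnorm)
  rw [Real.log_mul (by positivity) (by positivity), Real.log_mul (by positivity) (by positivity),
    Real.log_exp, Real.log_pow, Real.log_pow] at hlog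
  have l2 : Real.log 2 ≤ 1 := by
    have := Real.log_le_sub_one_of_pos (show (0 : ℝ) < 2 by norm_num)
    linarith
  have l4 : Real.log (4 * π) ≤ 16 := by
    have := Real.log_le_sub_one_of_pos (show (0 : ℝ) < 4 * π by positivity)
    have := Real.pi_lt_four
    linarith
  have hE0 : 0 ≤ dirE h := by
    unfold dirE
    apply integral_nonneg
    intro x
    positivity
  have hn1 : (1 : ℝ) ≤ n := by exact_mod_cast hn
  have hlogn : 0 ≤ Real.log n := Real.log_nonneg hn1
  have c1 : ((N ^ 2 : ℕ) : ℝ) * Real.log 2 ≤ N ^ 2 := by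
    push_cast
    calc (N : ℝ) ^ 2 * Real.log 2 ≤ N ^ 2 * 1 := by gcongr
      _ = _ := mul_one _
  have c2 : (N : ℝ) * Real.log (4 * π) ≤ N * 16 := by gcongr
  have c3 : 0 ≤ (n : ℝ) ^ 2 * dirE h := by positivity
  have c4 : 0 ≤ (N : ℝ) * Real.log n := by positivity
  have c5 : 0 ≤ (N : ℝ) * Λ := by positivity
  have c6 : 0 ≤ (N : ℝ) ^ 2 := by positivity
  have c7 : 0 ≤ (N : ℝ) := by positivity
  rw [hBd] at hlog
  nlinarith

end CMA
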