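import Pool.Agent.Work.MP_4eb3f9_an.Interface

/-!
# MP_4eb3f9_an, block B1: the Coulomb energy inequality

The kernel `K ε y = y / |y|²` for `|y| > ε` and `0` otherwise.  The integral of `∇h(x) · K ε (x - z)`
is minus the circle mean of `h` on `|x - z| = ε`, and the cross terms `K ε (x - z_i) · K ε (x - z_k)`
have integral at most `2π log (1 / |z_i - z_k|) + O(1)` on the unit disc.
-/

open Complex MeasureTheory Filter Topology Set
open scoped ContDiff Real

namespace CMA
namespace Coul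

lemma integral_radial (f : ℝ → ℝ) :
    ∫ z : ℂ, f ‖z‖ = 2 * π * ∫ r in Ioi (0 : ℝ), r * f r := by
  rw [integral_fun_norm_addHaar (volume : Measure ℂ) f]
  simp [Measure.real, Complex.volume_ball]
  ring

lemma integrable_radial {f : ℝ → ℝ} (h : IntegrableOn (fun r => r * f r) (Ioi (0 : ℝ))) :
    Integrable (fun z : ℂ => f ‖z‖) := by
  rw [integrable_fun_norm_addHaar (volume : Measure ℂ)]
  simpa using h

/-- `|y|^{-2}` on the annulus `a < |y| ≤ 3`. -/
noncomputable def fk (a : ℝ) (r : ℝ) : ℝ := (Ioc a 3).indicator (fun r => (r ^ 2)⁻¹) r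

/-- `|y|^{-1}` on the disc `|y| ≤ a`. -/
noncomputable def gk (a : ℝ) (r : ℝ) : ℝ := (Ioc 0 a).indicator (fun r => r⁻¹) r

lemma mul_fk {a r : ℝ} (ha : 0 < a) : r * fk a r = (Ioc a 3).indicator (fun r => r⁻¹) r := by
  by_cases h : r ∈ Ioc a 3
  · rw [fk, indicator_of_mem h, indicator_of_mem h]
    have : r ≠ 0 := (ha.trans h.1).ne'
    field_simp
  · rw [fk, indicator_of_notMem h, indicator_of_notMem h, mul_zero]

lemma mul_gk {a r : ℝ} : r * gk a r = (Ioc 0 a).indicator (fun _ => (1 : ℝ)) r := by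
  by_cases h : r ∈ Ioc 0 a
  · rw [gk, indicator_of_mem h, indicator_of_mem h]
    have : r ≠ 0 := h.1.ne'
    field_simp
  · rw [gk, indicator_of_notMem h, indicator_of_notMem h, mul_zero]

lemma integrableOn_inv_Ioc {a : ℝ} (ha : 0 < a) (ha3 : a ≤ 3) :
    IntegrableOn (fun r : ℝ => r⁻¹) (Ioc a 3) := by
  have : IntervalIntegrable (fun r : ℝ => r⁻¹) volume a 3 := by
    apply intervalIntegral.intervalIntegrable_inv
    · intro x hx
      rw [uIcc_of_le ha3] at hx
      exact (ha.trans_le hx.1).ne'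
    · exact continuousOn_id
  exact (intervalIntegrable_iff_integrableOn_Ioc_of_le ha3).1 this

lemma integrable_fk {a : ℝ} (ha : 0 < a) (ha3 : a ≤ 3) : Integrable (fun y : ℂ => fk a ‖y‖) := by
  apply integrable_radial
  simp only [mul_fk ha]
  apply Integrable.integrableOn
  rw [integrable_indicator_iff measurableSet_Ioc]
  exact integrableOn_inv_Ioc ha ha3

lemma integral_fk {a : ℝ} (ha : 0 < a) (ha3 : a ≤ 3) :
    ∫ y : ℂ, fk a ‖y‖ = 2 * π * Real.log (3 / a) := by
  rw [integral_radial]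
  congr 1
  simp only [mul_fk ha]
  rw [setIntegral_indicator measurableSet_Ioc]
  have : Ioi (0 : ℝ) ∩ Ioc a 3 = Ioc a 3 := by
    apply inter_eq_right.2
    intro x hx
    exact ha.trans hx.1
  rw [this, ← intervalIntegral.integral_of_le ha3, integral_inv_of_pos ha (by norm_num)]

lemma integrable_gk {a : ℝ} : Integrable (fun y : ℂ => gk a ‖y‖) := by
  apply integrable_radial
  simp only [mul_gk]
  apply Integrable.integrableOn
  rw [integrable_indicator_iff measurableSet_Ioc]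
  simp

lemma integral_gk {a : ℝ} (ha : 0 < a) :
    ∫ y : ℂ, gk a ‖y‖ = 2 * π * a := by
  rw [integral_radial]
  congr 1
  simp only [mul_gk]
  rw [setIntegral_indicator measurableSet_Ioc]
  have : Ioi (0 : ℝ) ∩ Ioc 0 a = Ioc 0 a := by
    apply inter_eq_right.2
    intro x hx
    exact hx.1
  rw [this]
  simp [ha.le]

lemma fk_nonneg (a r : ℝ) : 0 ≤ fk a r := by
  apply indicator_nonneg
  intro x _
  positivity

lemma gk_nonneg (a r : ℝ) : 0 ≤ gk a r := by
  apply indicator_nonneg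
  intro x hx
  exact inv_nonneg.2 hx.1.le

/-- The truncated Coulomb kernel. -/
noncomputable def K (ε : ℝ) (y : ℂ) : ℂ := if ε < ‖y‖ then ((‖y‖ ^ 2)⁻¹ : ℝ) • y else 0

lemma norm_K_of_lt {ε : ℝ} {y : ℂ} (h : ε < ‖y‖) : ‖K ε y‖ = ‖y‖⁻¹ := by
  rw [K, if_pos h, norm_smul, Real.norm_eq_abs, abs_of_nonneg (by positivity)]
  by_cases h0 : ‖y‖ = 0
  · simp [h0]
  · field_simp

lemma norm_K_le {ε : ℝ} (y : ℂ) : ‖K ε y‖ ≤ ‖y‖⁻¹ := by
  by_cases h : ε < ‖y‖
  · exact (norm_K_of_lt h).le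
  · rw [K, if_neg h, norm_zero]; positivity

lemma measurable_K (ε : ℝ) : Measurable (K ε) := by
  unfold K
  apply Measurable.ite
  · exact measurableSet_lt measurable_const measurable_norm
  · fun_prop
  · exact measurable_const

/-- real inner product -/
noncomputable def ip (a b : ℂ) : ℝ := a.re * b.re + a.im * b.im

lemma ip_le (a b : ℂ) : ip a b ≤ ‖a‖ * ‖b‖ := by
  have h1 : ip a b ^ 2 ≤ (‖a‖ * ‖b‖) ^ 2 := by
    rw [mul_pow, ← Complex.normSq_eq_norm_sq, ← Complex.normSq_eq_norm_sq, Complex.normSq_apply,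
      Complex.normSq_apply, ip]
    nlinarith [sq_nonneg (a.re * b.im - a.im * b.re)]
  exact abs_le_of_sq_le_sq' h1 (by positivity) |>.2

lemma ip_self (a : ℂ) : ip a a = ‖a‖ ^ 2 := by
  rw [← Complex.normSq_eq_norm_sq, Complex.normSq_apply, ip]

lemma ip_sum {ι : Type*} (s : Finset ι) (v : ι → ℂ) :
    ‖∑ i ∈ s, v i‖ ^ 2 = ∑ i ∈ s, ∑ k ∈ s, ip (v i) (v k) := by
  rw [← ip_self, ip]
  simp only [Complex.re_sum, Complex.im_sum, ip, Finset.sum_add_distrib, Finset.sum_mul_sum]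

/-- The pair majorant. -/
noncomputable def P (a r : ℝ) : ℝ := fk (a / 2) r + 4 / a * gk (a / 2) r

lemma P_nonneg {a : ℝ} (ha : 0 < a) (r : ℝ) : 0 ≤ P a r := by
  have := fk_nonneg (a / 2) r
  have := gk_nonneg (a / 2) r
  unfold P
  positivity

lemma integrable_P {a : ℝ} (ha : 0 < a) (ha4 : a ≤ 4) : Integrable (fun y : ℂ => P a ‖y‖) := by
  unfold P
  exact (integrable_fk (by positivity) (by linarith)).add (integrable_gk.const_mul _)

lemma integral_P {a : ℝ} (ha : 0 < a) (ha4 : a ≤ 4) :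
    ∫ y : ℂ, P a ‖y‖ = 2 * π * Real.log (6 / a) + 4 * π := by
  unfold P
  rw [integral_add (integrable_fk (by positivity) (by linarith)) (integrable_gk.const_mul _),
    integral_fk (by positivity) (by linarith), integral_const_mul, integral_gk (by positivity)]
  have : (3 : ℝ) / (a / 2) = 6 / a := by field_simp; norm_num
  rw [this]
  field_simp

lemma pair_le {ε : ℝ} (hε : 0 < ε) {y y' : ℂ} {a : ℝ} (ha : 0 < a) (hy : ‖y‖ ≤ 3) (hy' : ‖y'‖ ≤ 3)
    (hyy : a ≤ ‖y - y'‖) :
    ip (K ε y) (K ε y') ≤ (P a ‖y‖ + P a ‖y'‖) / 2 := by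
  have hP := P_nonneg ha ‖y‖
  have hP' := P_nonneg ha ‖y'‖
  by_cases h : ε < ‖y‖
  swap
  · rw [K, if_neg h]
    simp [ip]
    linarith
  by_cases h' : ε < ‖y'‖
  swap
  · rw [ip, K, K, if_neg h']
    simp
    linarith
  have hy0 : 0 < ‖y‖ := hε.trans h
  have hy0' : 0 < ‖y'‖ := hε.trans h'
  refine (ip_le _ _).trans ?_
  rw [norm_K_of_lt h, norm_K_of_lt h']
  have htri : a ≤ ‖y‖ + ‖y'‖ := hyy.trans (norm_sub_le _ _)
  by_cases c : ‖y‖ ≤ a / 2
  · have c' : a / 2 ≤ ‖y'‖ := by linarith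
    have e1 : gk (a / 2) ‖y‖ = ‖y‖⁻¹ := by
      rw [gk, indicator_of_mem (show ‖y‖ ∈ Ioc 0 (a / 2) from ⟨hy0, c⟩)]
    have e2 : ‖y'‖⁻¹ ≤ 2 / a := by
      rw [show (2 : ℝ) / a = (a / 2)⁻¹ by field_simp]
      exact inv_anti₀ (by positivity) c'
    have e3 : 4 / a * ‖y‖⁻¹ ≤ P a ‖y‖ := by
      unfold P
      rw [e1]
      have := fk_nonneg (a / 2) ‖y‖
      linarith
    calc ‖y‖⁻¹ * ‖y'‖⁻¹ ≤ ‖y‖⁻¹ * (2 / a) := by gcongr
      _ = (4 / a * ‖y‖⁻¹) / 2 := by ring
      _ ≤ _ := by linarith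
  · push Not at c
    have e1 : fk (a / 2) ‖y‖ = (‖y‖ ^ 2)⁻¹ := by
      rw [fk, indicator_of_mem (show ‖y‖ ∈ Ioc (a / 2) 3 from ⟨c, hy⟩)]
    have f1 : (‖y‖ ^ 2)⁻¹ ≤ P a ‖y‖ := by
      unfold P
      rw [e1]
      have := gk_nonneg (a / 2) ‖y‖
      have : 0 ≤ 4 / a * gk (a / 2) ‖y‖ := by positivity
      linarith
    by_cases c' : ‖y'‖ ≤ a / 2
    · have e1' : gk (a / 2) ‖y'‖ = ‖y'‖⁻¹ := by
        rw [gk, indicator_of_mem (show ‖y'‖ ∈ Ioc 0 (a / 2) from ⟨hy0', c'⟩)]
      have e2 : ‖y‖⁻¹ ≤ 2 / a := by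
        rw [show (2 : ℝ) / a = (a / 2)⁻¹ by field_simp]
        exact inv_anti₀ (by positivity) c.le
      have e3 : 4 / a * ‖y'‖⁻¹ ≤ P a ‖y'‖ := by
        unfold P
        rw [e1']
        have := fk_nonneg (a / 2) ‖y'‖
        linarith
      calc ‖y‖⁻¹ * ‖y'‖⁻¹ ≤ (2 / a) * ‖y'‖⁻¹ := by gcongr
        _ = (4 / a * ‖y'‖⁻¹) / 2 := by ring
        _ ≤ _ := by linarith
    · push Not at c'
      have e1' : fk (a / 2) ‖y'‖ = (‖y'‖ ^ 2)⁻¹ := by
        rw [fk, indicator_of_mem (show ‖y'‖ ∈ Ioc (a / 2) 3 from ⟨c', hy'⟩)]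
      have f1' : (‖y'‖ ^ 2)⁻¹ ≤ P a ‖y'‖ := by
        unfold P
        rw [e1']
        have := gk_nonneg (a / 2) ‖y'‖
        have : 0 ≤ 4 / a * gk (a / 2) ‖y'‖ := by positivity
        linarith
      have : ‖y‖⁻¹ * ‖y'‖⁻¹ ≤ ((‖y‖ ^ 2)⁻¹ + (‖y'‖ ^ 2)⁻¹) / 2 := by
        rw [← inv_pow, ← inv_pow]
        nlinarith [sq_nonneg (‖y‖⁻¹ - ‖y'‖⁻¹)]
      linarith

lemma diag_le {ε : ℝ} {y : ℂ} (hy : ‖y‖ ≤ 3) : ip (K ε y) (K ε y) ≤ fk ε ‖y‖ := by
  rw [ip_self]
  by_cases h : ε < ‖y‖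
  · rw [norm_K_of_lt h, fk, indicator_of_mem (show ‖y‖ ∈ Ioc ε 3 from ⟨h, hy⟩), inv_pow]
  · rw [K, if_neg h]
    simp [fk_nonneg]

/-! ## The kernel against a gradient -/

lemma fderiv_mul_K (h : ℂ → ℝ) (z₀ : ℂ) {ε : ℝ} (θ r : ℝ) (hr : 0 < r) :
    r * fderiv ℝ h (z₀ + r * Complex.exp (θ * Complex.I)) (K ε (r * Complex.exp (θ * Complex.I))) =
      (Ioi ε).indicator (fun r : ℝ =>
        fderiv ℝ h (z₀ + r * Complex.exp (θ * Complex.I)) (Complex.exp (θ * Complex.I))) r := by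
  have hn : ‖(r : ℂ) * Complex.exp (θ * Complex.I)‖ = r := by
    rw [norm_mul, Complex.norm_exp_ofReal_mul_I, mul_one, Complex.norm_real, Real.norm_eq_abs,
      abs_of_pos hr]
  by_cases h1 : ε < r
  · rw [K, hn, if_pos h1, indicator_of_mem (show r ∈ Ioi ε from h1)]
    have : (((r ^ 2)⁻¹ : ℝ) • ((r : ℂ) * Complex.exp (θ * Complex.I))) =
        (r⁻¹ : ℝ) • Complex.exp (θ * Complex.I) := by
      rw [Complex.real_smul, Complex.real_smul]
      push_cast
      have : (r : ℂ) ≠ 0 := by exact_mod_cast hr.ne'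
      field_simp
    rw [this, map_smul, smul_eq_mul]
    field_simp
  · rw [K, hn, if_neg h1, map_zero, mul_zero, indicator_of_notMem (show r ∉ Ioi ε from h1)]

lemma hasDerivAt_ray {h : ℂ → ℝ} (hh : ContDiff ℝ ∞ h) (z₀ : ℂ) (θ r : ℝ) :
    HasDerivAt (fun r : ℝ => h (z₀ + r * Complex.exp (θ * Complex.I)))
      (fderiv ℝ h (z₀ + r * Complex.exp (θ * Complex.I)) (Complex.exp (θ * Complex.I))) r := by
  have h1 : HasFDerivAt h (fderiv ℝ h (z₀ + r * Complex.exp (θ * Complex.I)))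
      (z₀ + r * Complex.exp (θ * Complex.I)) :=
    (hh.differentiable (by simp)).differentiableAt.hasFDerivAt
  have h2 : HasDerivAt (fun r : ℝ => z₀ + r * Complex.exp (θ * Complex.I))
      (Complex.exp (θ * Complex.I)) r := by
    have := ((Complex.ofRealCLM.hasDerivAt (x := r)).mul_const (Complex.exp (θ * Complex.I))).const_add z₀
    simpa using this
  exact h1.comp_hasDerivAt r h2

lemma norm_ray (θ : ℝ) {r : ℝ} (hr : 0 ≤ r) : ‖(r : ℂ) * Complex.exp (θ * Complex.I)‖ = r := by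
  rw [norm_mul, Complex.norm_exp_ofReal_mul_I, mul_one, Complex.norm_real, Real.norm_eq_abs,
    abs_of_nonneg hr]

lemma h_zero_far {h : ℂ → ℝ} (h0 : ∀ z, 1 ≤ ‖z‖ → h z = 0) {z₀ : ℂ} (hz : ‖z₀‖ ≤ 2) (θ : ℝ) {r : ℝ}
    (hr : 3 ≤ r) : h (z₀ + r * Complex.exp (θ * Complex.I)) = 0 := by
  apply h0
  have := norm_sub_le_norm_add ((r : ℂ) * Complex.exp (θ * Complex.I)) z₀
  rw [norm_ray θ (by linarith)] at this
  rw [add_comm]
  linarith

lemma fderiv_zero_far {h : ℂ → ℝ} (h0 : ∀ z, 1 ≤ ‖z‖ → h z = 0) {x : ℂ} (hx : 1 < ‖x‖) :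
    fderiv ℝ h x = 0 := by
  have : h =ᶠ[𝓝 x] fun _ => (0 : ℝ) := by
    have : ∀ᶠ y in 𝓝 x, 1 < ‖y‖ := (continuous_norm.tendsto x).eventually_const_lt hx
    filter_upwards [this] with y hy
    exact h0 y hy.le
  rw [this.fderiv_eq]
  simp

lemma ray_integral {h : ℂ → ℝ} (hh : ContDiff ℝ ∞ h) (h0 : ∀ z, 1 ≤ ‖z‖ → h z = 0)
    {z₀ : ℂ} (hz : ‖z₀‖ ≤ 2) {ε : ℝ} (hε : 0 < ε) (θ : ℝ) :
    ∫ r in Ioi (0 : ℝ), r * fderiv ℝ h (z₀ + r * Complex.exp (θ * Complex.I))
      (K ε (r * Complex.exp (θ * Complex.I))) = - h (z₀ + ε * Complex.exp (θ * Complex.I)) := by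
  rw [setIntegral_congr_fun measurableSet_Ioi (fun r hr => fderiv_mul_K h z₀ θ r hr),
    setIntegral_indicator measurableSet_Ioi]
  have : Ioi (0 : ℝ) ∩ Ioi ε = Ioi ε := inter_eq_right.2 (Ioi_subset_Ioi hε.le)
  rw [this]
  have hint : IntegrableOn (fun r : ℝ => fderiv ℝ h (z₀ + r * Complex.exp (θ * Complex.I))
      (Complex.exp (θ * Complex.I))) (Ioi ε) := by
    apply Integrable.integrableOn
    have hcont : Continuous (fun r : ℝ => fderiv ℝ h (z₀ + r * Complex.exp (θ * Complex.I))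
      (Complex.exp (θ * Complex.I))) := by
      have := hh.continuous_fderiv (by simp)
      fun_prop
    apply hcont.integrable_of_hasCompactSupport
    apply HasCompactSupport.of_support_subset_isCompact (K := Icc (-3) 3) isCompact_Icc
    intro r hr
    by_contra hcon
    apply hr
    have hr3 : 3 < |r| := by
      by_contra h'
      push Not at h'
      exact hcon (abs_le.1 h')
    show fderiv ℝ h (z₀ + r * Complex.exp (θ * Complex.I)) (Complex.exp (θ * Complex.I)) = 0
    rw [fderiv_zero_far h0]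
    · simp
    · have := norm_sub_le_norm_add ((r : ℂ) * Complex.exp (θ * Complex.I)) z₀
      rw [norm_mul, Complex.norm_exp_ofReal_mul_I, mul_one, Complex.norm_real,
        Real.norm_eq_abs] at this
      rw [add_comm]
      linarith
  have htend : Tendsto (fun r : ℝ => h (z₀ + r * Complex.exp (θ * Complex.I))) atTop (𝓝 0) := by
    apply tendsto_const_nhds.congr'
    filter_upwards [eventually_ge_atTop (3 : ℝ)] with r hr
    exact (h_zero_far h0 hz θ hr).symm
  rw [integral_Ioi_of_hasDerivAt_of_tendsto' (fun r _ => hasDerivAt_ray hh z₀ θ r) hint htend]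
  simp

lemma norm_fderiv_bdd {h : ℂ → ℝ} (hh : ContDiff ℝ ∞ h) (h0 : ∀ z, 1 ≤ ‖z‖ → h z = 0) :
    ∃ B : ℝ, 0 ≤ B ∧ ∀ x, ‖fderiv ℝ h x‖ ≤ B := by
  have hcs : HasCompactSupport (fderiv ℝ h) := by
    apply HasCompactSupport.fderiv
    apply HasCompactSupport.of_support_subset_isCompact (K := Metric.closedBall 0 1)
      (isCompact_closedBall _ _)
    intro z hz
    simp only [Metric.mem_closedBall, dist_zero_right]
    by_contra hcon
    push Not at hcon
    exact hz (h0 z hcon.le)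
  obtain ⟨B, hB⟩ := hcs.exists_bound_of_continuous (hh.continuous_fderiv (by simp))
  exact ⟨max B 0, le_max_right _ _, fun x => (hB x).trans (le_max_left _ _)⟩

lemma kernel_integral {h : ℂ → ℝ} (hh : ContDiff ℝ ∞ h) (h0 : ∀ z, 1 ≤ ‖z‖ → h z = 0)
    {z₀ : ℂ} (hz : ‖z₀‖ ≤ 2) {ε : ℝ} (hε : 0 < ε) :
    ∫ x : ℂ, fderiv ℝ h x (K ε (x - z₀)) =
      - ∫ θ in Ioo (-π) π, h (z₀ + ε * Complex.exp (θ * Complex.I)) := by
  have e1 : ∫ x : ℂ, fderiv ℝ h x (K ε (x - z₀)) = ∫ y : ℂ, fderiv ℝ h (z₀ + y) (K ε y) := by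
    rw [← integral_add_right_eq_self _ z₀]
    simp [add_comm]
  rw [e1, ← Complex.integral_comp_polarCoord_symm]
  have e2 : ∀ p : ℝ × ℝ, (Complex.polarCoord.symm p) = p.1 * Complex.exp (p.2 * Complex.I) := by
    intro p
    rw [Complex.polarCoord_symm_apply, Complex.exp_mul_I]
    push_cast
    rfl
  simp only [e2, smul_eq_mul]
  have htar : polarCoord.target = Ioi (0 : ℝ) ×ˢ Ioo (-π) π := rfl
  rw [htar]
  obtain ⟨B, hB0, hB⟩ := norm_fderiv_bdd hh h0
  have hint : IntegrableOn (fun p : ℝ × ℝ => p.1 * fderiv ℝ h (z₀ + p.1 * Complex.exp (p.2 * Complex.I))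
      (K ε (p.1 * Complex.exp (p.2 * Complex.I)))) (Ioi (0 : ℝ) ×ˢ Ioo (-π) π) (volume.prod volume) := by
    have hdom : IntegrableOn ((Ioc (0 : ℝ) 4 ×ˢ Ioo (-π) π).indicator (fun _ : ℝ × ℝ => B))
        (Ioi (0 : ℝ) ×ˢ Ioo (-π) π) (volume.prod volume) := by
      apply Integrable.integrableOn
      rw [integrable_indicator_iff (measurableSet_Ioc.prod measurableSet_Ioo)]
      refine integrableOn_const ?_
      rw [Measure.prod_prod]
      simp only [Real.volume_Ioc, Real.volume_Ioo]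
      exact ENNReal.mul_ne_top ENNReal.ofReal_ne_top ENNReal.ofReal_ne_top
    refine Integrable.mono' hdom ?_ ?_
    · apply Measurable.aestronglyMeasurable
      apply Measurable.mul measurable_fst
      have m1 : Measurable fun p : ℝ × ℝ => fderiv ℝ h (z₀ + p.1 * Complex.exp (p.2 * Complex.I)) := by
        apply Continuous.measurable
        have := hh.continuous_fderiv (by simp)
        fun_prop
      have m2 : Measurable fun p : ℝ × ℝ => K ε (p.1 * Complex.exp (p.2 * Complex.I)) := by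
        apply (measurable_K ε).comp
        fun_prop
      exact (ContinuousLinearMap.measurable_apply₂ (𝕜 := ℝ) (E := ℂ) (F := ℝ)).comp (m1.prodMk m2)
    · rw [ae_restrict_iff' (measurableSet_Ioi.prod measurableSet_Ioo)]
      apply ae_of_all
      rintro ⟨r, θ⟩ ⟨hr, hθ⟩
      simp only [mem_Ioi] at hr
      simp only at hθ
      show ‖r * fderiv ℝ h (z₀ + r * Complex.exp (θ * Complex.I)) (K ε (r * Complex.exp (θ * Complex.I)))‖ ≤ _
      by_cases hr4 : r ≤ 4
      · rw [indicator_of_mem (show (r, θ) ∈ Ioc (0 : ℝ) 4 ×ˢ Ioo (-π) π from ⟨⟨hr, hr4⟩, hθ⟩)]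
        rw [norm_mul, Real.norm_eq_abs, abs_of_pos hr]
        calc r * ‖fderiv ℝ h (z₀ + r * Complex.exp (θ * Complex.I)) (K ε (r * Complex.exp (θ * Complex.I)))‖
            ≤ r * (‖fderiv ℝ h (z₀ + r * Complex.exp (θ * Complex.I))‖ *
              ‖K ε (r * Complex.exp (θ * Complex.I))‖) := by
              gcongr
              exact ContinuousLinearMap.le_opNorm _ _
          _ ≤ r * (B * ‖(r : ℂ) * Complex.exp (θ * Complex.I)‖⁻¹) := by
              gcongr
              · exact hB _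
              · exact norm_K_le _
          _ = B := by
              rw [norm_ray θ hr.le]
              field_simp
      · push Not at hr4
        rw [fderiv_zero_far h0]
        · simp only [zero_apply, mul_zero, norm_zero]
          exact indicator_nonneg (fun _ _ => hB0) _
        · have := norm_sub_le_norm_add ((r : ℂ) * Complex.exp (θ * Complex.I)) z₀
          rw [norm_ray θ hr.le] at this
          rw [add_comm]
          linarith
  rw [IntegrableOn, ← Measure.prod_restrict] at hint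
  rw [Measure.volume_eq_prod, ← Measure.prod_restrict, integral_prod_symm _ hint, ← integral_neg]
  apply integral_congr_ae
  apply ae_of_all
  intro θ
  exact ray_integral hh h0 hz hε θ

/-- The circle mean of a Lipschitz function. -/
lemma circle_ge {h : ℂ → ℝ} (hh : ContDiff ℝ ∞ h) {Λ : ℝ} (hL : ∀ z w, |h z - h w| ≤ Λ * ‖z - w‖)
    (z₀ : ℂ) {ε : ℝ} (hε : 0 < ε) :
    2 * π * (h z₀ - Λ * ε) ≤ ∫ θ in Ioo (-π) π, h (z₀ + ε * Complex.exp (θ * Complex.I)) := by
  have hc : Continuous fun θ : ℝ => h (z₀ + ε * Complex.exp (θ * Complex.I)) := by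
    have := hh.continuous
    fun_prop
  have e : ∫ θ in Ioo (-π) π, (h z₀ - Λ * ε) = 2 * π * (h z₀ - Λ * ε) := by
    simp [Measure.real, Real.volume_Ioo]
    rw [ENNReal.toReal_ofReal (by linarith [Real.pi_pos])]
    left
    ring
  rw [← e]
  apply setIntegral_mono_on
  · simp
  · exact (hc.integrableOn_Icc (a := -π) (b := π)).mono_set Ioo_subset_Icc_self
  · exact measurableSet_Ioo
  · intro θ _
    have := hL z₀ (z₀ + ε * Complex.exp (θ * Complex.I))
    have e2 : ‖z₀ - (z₀ + ε * Complex.exp (θ * Complex.I))‖ = ε := by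
      rw [sub_add_cancel_left, norm_neg, norm_ray θ hε.le]
    rw [e2] at this
    linarith [(abs_le.1 this).2]

lemma fderiv_decomp (h : ℂ → ℝ) (x v : ℂ) :
    fderiv ℝ h x v = v.re * fderiv ℝ h x 1 + v.im * fderiv ℝ h x Complex.I := by
  conv_lhs => rw [show v = v.re • (1 : ℂ) + v.im • Complex.I by
    simp [Complex.real_smul, Complex.re_add_im]]
  rw [map_add, map_smul, map_smul, smul_eq_mul, smul_eq_mul]

lemma pointwise_amgm (h : ℂ → ℝ) (x v : ℂ) {n : ℝ} (hn : 0 < n) :
    - fderiv ℝ h x v ≤ n * ((fderiv ℝ h x 1) ^ 2 + (fderiv ℝ h x Complex.I) ^ 2)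
      + ‖v‖ ^ 2 / (4 * n) := by
  rw [fderiv_decomp, ← Complex.normSq_eq_norm_sq, Complex.normSq_apply]
  set a := fderiv ℝ h x 1
  set b := fderiv ℝ h x Complex.I
  have h1 : n * (a ^ 2 + b ^ 2) + (v.re * v.re + v.im * v.im) / (4 * n) + (v.re * a + v.im * b)
      = n * (a + v.re / (2 * n)) ^ 2 + n * (b + v.im / (2 * n)) ^ 2 := by
    field_simp
    ring
  have h2 : 0 ≤ n * (a + v.re / (2 * n)) ^ 2 + n * (b + v.im / (2 * n)) ^ 2 := by positivity
  linarith

/-! ## The energy of the field -/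

section Field

variable {N : ℕ} (z : Fin N → ℂ) (ε : ℝ)

/-- The field of the charges. -/
noncomputable def V (x : ℂ) : ℂ := ∑ i, K ε (x - z i)

lemma measurable_V : Measurable (V z ε) := by
  unfold V
  apply Finset.measurable_fun_sum
  intro i _
  exact (measurable_K ε).comp (measurable_id.sub_const _)

lemma norm_K_le' {ε : ℝ} (hε : 0 < ε) (y : ℂ) : ‖K ε y‖ ≤ ε⁻¹ := by
  by_cases h : ε < ‖y‖
  · rw [norm_K_of_lt h]
    exact inv_anti₀ hε h.le
  · rw [K, if_neg h, norm_zero]; positivity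

lemma norm_V_le {ε : ℝ} (hε : 0 < ε) (x : ℂ) : ‖V z ε x‖ ≤ N * ε⁻¹ := by
  unfold V
  refine (norm_sum_le _ _).trans ?_
  refine (Finset.sum_le_sum fun i _ => norm_K_le' hε (x - z i)).trans ?_
  simp

lemma integrableOn_V {ε : ℝ} (hε : 0 < ε) :
    IntegrableOn (fun x => ‖V z ε x‖ ^ 2) (Metric.closedBall (0 : ℂ) 1) := by
  refine Integrable.mono' (g := fun _ => ((N : ℝ) * ε⁻¹) ^ 2) ?_ ?_ ?_
  · exact integrableOn_const (by simp [Complex.volume_closedBall])
  · exact ((measurable_V z ε).norm.pow_const 2).aestronglyMeasurable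
  · apply ae_of_all
    intro x
    rw [Real.norm_eq_abs, abs_of_nonneg (by positivity)]
    have := norm_V_le z hε x
    gcongr

/-- The majorant of the cross terms. -/
noncomputable def Mj (i k : Fin N) (x : ℂ) : ℝ :=
  if i = k then fk ε ‖x - z i‖ else (P ‖z i - z k‖ ‖x - z i‖ + P ‖z i - z k‖ ‖x - z k‖) / 2

lemma Mj_nonneg (hinj : Function.Injective z) (i k : Fin N) (x : ℂ) : 0 ≤ Mj z ε i k x := by
  unfold Mj
  split_ifs with h
  · exact fk_nonneg _ _
  · have h0 : 0 < ‖z i - z k‖ := norm_pos_iff.2 (sub_ne_zero.2 (fun e => h (hinj e)))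
    have := P_nonneg h0 ‖x - z i‖
    have := P_nonneg h0 ‖x - z k‖
    positivity

lemma norm_sub_le_four (hz : ∀ i, ‖z i‖ ≤ 2) (i k : Fin N) : ‖z i - z k‖ ≤ 4 := by
  have := norm_sub_le (z i) (z k)
  linarith [hz i, hz k]

lemma integrable_Mj {ε : ℝ} (hε : 0 < ε) (hε3 : ε ≤ 3) (hz : ∀ i, ‖z i‖ ≤ 2)
    (hinj : Function.Injective z) (i k : Fin N) : Integrable (Mj z ε i k) := by
  unfold Mj
  split_ifs with h
  · exact (integrable_fk hε hε3).comp_sub_right (z i)
  · have h0 : 0 < ‖z i - z k‖ := norm_pos_iff.2 (sub_ne_zero.2 (fun e => h (hinj e)))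
    have h4 := norm_sub_le_four z hz i k
    exact (((integrable_P h0 h4).comp_sub_right (z i)).add
      ((integrable_P h0 h4).comp_sub_right (z k))).div_const 2

lemma integral_Mj {ε : ℝ} (hε : 0 < ε) (hε3 : ε ≤ 3) (hz : ∀ i, ‖z i‖ ≤ 2)
    (hinj : Function.Injective z) (i k : Fin N) :
    ∫ x, Mj z ε i k x = if i = k then 2 * π * Real.log (3 / ε)
      else 2 * π * Real.log (6 / ‖z i - z k‖) + 4 * π := by
  unfold Mj
  split_ifs with h
  · rw [integral_sub_right_eq_self (fun y : ℂ => fk ε ‖y‖) (z i), integral_fk hε hε3]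
  · have h0 : 0 < ‖z i - z k‖ := norm_pos_iff.2 (sub_ne_zero.2 (fun e => h (hinj e)))
    have h4 := norm_sub_le_four z hz i k
    rw [integral_div, integral_add ((integrable_P h0 h4).comp_sub_right (z i))
      ((integrable_P h0 h4).comp_sub_right (z k)),
      integral_sub_right_eq_self (fun y : ℂ => P ‖z i - z k‖ ‖y‖) (z i),
      integral_sub_right_eq_self (fun y : ℂ => P ‖z i - z k‖ ‖y‖) (z k), integral_P h0 h4]
    ring

lemma V_energy {ε : ℝ} (hε : 0 < ε) (hε3 : ε ≤ 3) (hz : ∀ i, ‖z i‖ ≤ 2)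
    (hinj : Function.Injective z) :
    ∫ x in Metric.closedBall (0 : ℂ) 1, ‖V z ε x‖ ^ 2 ≤
      ∑ i, ∑ k, if i = k then 2 * π * Real.log (3 / ε)
        else 2 * π * Real.log (6 / ‖z i - z k‖) + 4 * π := by
  have hint : Integrable (fun x => ∑ i, ∑ k, Mj z ε i k x) :=
    integrable_finsetSum _ fun i _ => integrable_finsetSum _ fun k _ =>
      integrable_Mj z hε hε3 hz hinj i k
  calc ∫ x in Metric.closedBall (0 : ℂ) 1, ‖V z ε x‖ ^ 2
      ≤ ∫ x in Metric.closedBall (0 : ℂ) 1, ∑ i, ∑ k, Mj z ε i k x := by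
        apply setIntegral_mono_on (integrableOn_V z hε) hint.integrableOn measurableSet_closedBall
        intro x hx
        have hx1 : ‖x‖ ≤ 1 := by simpa using hx
        rw [V, ip_sum]
        apply Finset.sum_le_sum
        intro i _
        apply Finset.sum_le_sum
        intro k _
        have hi : ‖x - z i‖ ≤ 3 := by
          have := norm_sub_le x (z i); linarith [hz i]
        have hk : ‖x - z k‖ ≤ 3 := by
          have := norm_sub_le x (z k); linarith [hz k]
        unfold Mj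
        split_ifs with h
        · subst h
          exact diag_le hi
        · have h0 : 0 < ‖z i - z k‖ := norm_pos_iff.2 (sub_ne_zero.2 (fun e => h (hinj e)))
          apply pair_le hε h0 hi hk
          rw [sub_sub_sub_cancel_left, norm_sub_rev]
    _ ≤ ∫ x, ∑ i, ∑ k, Mj z ε i k x := by
        apply setIntegral_le_integral hint
        apply ae_of_all
        intro x
        exact Finset.sum_nonneg fun i _ => Finset.sum_nonneg fun k _ => Mj_nonneg z ε hinj i k x
    _ = _ := by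
        rw [integral_finsetSum _ fun i _ => integrable_finsetSum _ fun k _ =>
          integrable_Mj z hε hε3 hz hinj i k]
        apply Finset.sum_congr rfl
        intro i _
        rw [integral_finsetSum _ fun k _ => integrable_Mj z hε hε3 hz hinj i k]
        apply Finset.sum_congr rfl
        intro k _
        exact integral_Mj z hε hε3 hz hinj i k

end Field

lemma integrable_fderiv_K {h : ℂ → ℝ} (hh : ContDiff ℝ ∞ h) (h0 : ∀ z, 1 ≤ ‖z‖ → h z = 0)
    (z₀ : ℂ) {ε : ℝ} (hε : 0 < ε) : Integrable (fun x => fderiv ℝ h x (K ε (x - z₀))) := by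
  obtain ⟨B, hB0, hB⟩ := norm_fderiv_bdd hh h0
  have hdom : Integrable ((Metric.closedBall (0 : ℂ) 1).indicator (fun _ => B * ε⁻¹)) := by
    rw [integrable_indicator_iff measurableSet_closedBall]
    exact integrableOn_const (by simp [Complex.volume_closedBall])
  refine hdom.mono' ?_ ?_
  · apply Measurable.aestronglyMeasurable
    have m1 : Measurable fun p : ℂ => fderiv ℝ h p := by
      apply Continuous.measurable
      exact hh.continuous_fderiv (by simp)
    have m2 : Measurable fun p : ℂ => K ε (p - z₀) :=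
      (measurable_K ε).comp (measurable_id.sub_const _)
    exact (ContinuousLinearMap.measurable_apply₂ (𝕜 := ℝ) (E := ℂ) (F := ℝ)).comp (m1.prodMk m2)
  · apply ae_of_all
    intro x
    by_cases hx : ‖x‖ ≤ 1
    · rw [indicator_of_mem (by simpa using hx)]
      calc ‖fderiv ℝ h x (K ε (x - z₀))‖ ≤ ‖fderiv ℝ h x‖ * ‖K ε (x - z₀)‖ :=
            ContinuousLinearMap.le_opNorm _ _
        _ ≤ B * ε⁻¹ := by
            gcongr
            · exact hB x
            · exact norm_K_le' hε _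
    · push Not at hx
      rw [fderiv_zero_far h0 hx]
      simp only [zero_apply, norm_zero]
      exact indicator_nonneg (fun _ _ => by positivity) _

lemma integrable_grad {h : ℂ → ℝ} (hh : ContDiff ℝ ∞ h) (h0 : ∀ z, 1 ≤ ‖z‖ → h z = 0) :
    Integrable (fun z => (fderiv ℝ h z 1) ^ 2 + (fderiv ℝ h z Complex.I) ^ 2) := by
  have hc : Continuous (fderiv ℝ h) := hh.continuous_fderiv (by simp)
  apply Continuous.integrable_of_hasCompactSupport
  · fun_prop
  · apply HasCompactSupport.of_support_subset_isCompact (K := Metric.closedBall 0 1)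
      (isCompact_closedBall _ _)
    intro x hx
    simp only [Metric.mem_closedBall, dist_zero_right]
    by_contra hcon
    push Not at hcon
    apply hx
    simp [fderiv_zero_far h0 hcon]

lemma main_ineq {h : ℂ → ℝ} {Λ : ℝ} {n N : ℕ} {z : Fin N → ℂ} (hh : ContDiff ℝ ∞ h)
    (h0 : ∀ z, 1 ≤ ‖z‖ → h z = 0) (hL : ∀ z w, |h z - h w| ≤ Λ * ‖z - w‖) (hn : 1 ≤ n)
    (hz : ∀ i, ‖z i‖ ≤ 2) (hinj : Function.Injective z) :
    2 * π * ∑ i, h (z i) ≤ n * dirE h + (∑ i : Fin N, ∑ k : Fin N,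
      if i = k then 2 * π * Real.log (3 * n)
        else 2 * π * Real.log (6 / ‖z i - z k‖) + 4 * π) / (4 * n) + 2 * π * N * Λ / n := by
  have hn0 : (0 : ℝ) < n := by exact_mod_cast (lt_of_lt_of_le Nat.zero_lt_one hn)
  have hn1 : (1 : ℝ) ≤ n := by exact_mod_cast hn
  set ε : ℝ := (n : ℝ)⁻¹ with hεdef
  have hε : 0 < ε := by positivity
  have hε1 : ε ≤ 1 := inv_le_one_of_one_le₀ hn1
  have step1 : 2 * π * ∑ i, h (z i) - 2 * π * N * Λ / n ≤ ∫ x, - fderiv ℝ h x (V z ε x) := by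
    have e1 : ∫ x, - fderiv ℝ h x (V z ε x) =
        ∑ i, ∫ θ in Ioo (-π) π, h (z i + ε * Complex.exp (θ * Complex.I)) := by
      rw [integral_neg]
      unfold V
      simp only [map_sum]
      rw [integral_finsetSum _ fun i _ => integrable_fderiv_K hh h0 (z i) hε]
      rw [← Finset.sum_neg_distrib]
      apply Finset.sum_congr rfl
      intro i _
      rw [kernel_integral hh h0 (hz i) hε, neg_neg]
    rw [e1]
    calc 2 * π * ∑ i, h (z i) - 2 * π * N * Λ / n = ∑ i : Fin N, 2 * π * (h (z i) - Λ * ε) := by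
          simp only [mul_sub, Finset.sum_sub_distrib, ← Finset.mul_sum]
          simp [hεdef]
          field_simp
      _ ≤ _ := Finset.sum_le_sum fun i _ => circle_ge hh hL (z i) hε
  have step2 : ∫ x, - fderiv ℝ h x (V z ε x) ≤ n * dirE h +
      (∫ x in Metric.closedBall (0 : ℂ) 1, ‖V z ε x‖ ^ 2) / (4 * n) := by
    have e1 : ∫ x, - fderiv ℝ h x (V z ε x) =
        ∫ x in Metric.closedBall (0 : ℂ) 1, - fderiv ℝ h x (V z ε x) := by
      symm
      apply setIntegral_eq_integral_of_forall_compl_eq_zero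
      intro x hx
      have : 1 < ‖x‖ := by simpa using hx
      rw [fderiv_zero_far h0 this]
      simp
    have i1 : Integrable (fun x => - fderiv ℝ h x (V z ε x)) := by
      unfold V
      simp only [map_sum]
      exact (integrable_finsetSum _ fun i _ => integrable_fderiv_K hh h0 (z i) hε).neg
    rw [e1]
    calc ∫ x in Metric.closedBall (0 : ℂ) 1, - fderiv ℝ h x (V z ε x)
        ≤ ∫ x in Metric.closedBall (0 : ℂ) 1,
          (n * ((fderiv ℝ h x 1) ^ 2 + (fderiv ℝ h x Complex.I) ^ 2) + ‖V z ε x‖ ^ 2 / (4 * n)) := by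
          apply setIntegral_mono i1.integrableOn
          · exact ((integrable_grad hh h0).integrableOn.const_mul _).add
              ((integrableOn_V z hε).div_const _)
          · intro x
            exact pointwise_amgm h x _ hn0
      _ = n * (∫ x in Metric.closedBall (0 : ℂ) 1,
            ((fderiv ℝ h x 1) ^ 2 + (fderiv ℝ h x Complex.I) ^ 2)) +
          (∫ x in Metric.closedBall (0 : ℂ) 1, ‖V z ε x‖ ^ 2) / (4 * n) := by
          rw [integral_add ((integrable_grad hh h0).integrableOn.const_mul _)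
              ((integrableOn_V z hε).div_const _), integral_const_mul, integral_div]
      _ ≤ _ := by
          gcongr
          apply setIntegral_le_integral (integrable_grad hh h0)
          apply ae_of_all
          intro x
          positivity
  have step3 := V_energy z hε (by linarith) hz hinj
  have e3 : (3 : ℝ) / ε = 3 * n := by simp [hεdef]
  rw [e3] at step3
  have step4 : (∫ x in Metric.closedBall (0 : ℂ) 1, ‖V z ε x‖ ^ 2) / (4 * n) ≤
      (∑ i : Fin N, ∑ k : Fin N,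
      if i = k then 2 * π * Real.log (3 * n)
        else 2 * π * Real.log (6 / ‖z i - z k‖) + 4 * π) / (4 * n) := by
    gcongr
  linarith

lemma sum_symm {N : ℕ} (F : Fin N → Fin N → ℝ) (hF : ∀ i k, F i k = F k i) :
    ∑ i, ∑ k, F i k = ∑ i, F i i + 2 * ∑ i, ∑ k ∈ Finset.univ.filter (fun k => i < k), F i k := by
  have h1 : ∀ i k, F i k = (if i = k then F i k else 0) + (if i < k then F i k else 0)
      + (if k < i then F i k else 0) := by
    intro i k
    rcases lt_trichotomy i k with h | h | h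
    · simp [h, h.ne, h.not_gt]
    · simp [h]
    · simp [h, h.ne', h.not_gt]
  have h2 : ∑ i, ∑ k, (if k < i then F i k else 0) = ∑ i, ∑ k, (if i < k then F i k else 0) := by
    rw [Finset.sum_comm]
    apply Finset.sum_congr rfl; intro i _
    apply Finset.sum_congr rfl; intro k _
    rw [hF]
  calc ∑ i, ∑ k, F i k = ∑ i, ∑ k, ((if i = k then F i k else 0) + (if i < k then F i k else 0)
      + (if k < i then F i k else 0)) := by
        apply Finset.sum_congr rfl; intro i _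
        apply Finset.sum_congr rfl; intro k _
        exact h1 i k
    _ = _ := by
        simp only [Finset.sum_add_distrib]
        rw [h2]
        simp only [Finset.sum_ite_eq, Finset.mem_univ, if_true, Finset.sum_filter]
        ring

lemma alg2 {n N E L6 L3 Ln cnt S Λ H p : ℝ} (hN : 0 ≤ N) (hE : 0 ≤ E) (hp : 3 < p)
    (hL6 : L6 ≤ 5) (hL3 : L3 ≤ 2 + Ln) (hLn : 0 ≤ Ln) (hc : cnt ≤ N ^ 2)
    (hc0 : 0 ≤ cnt) (hΛ : 0 ≤ Λ)
    (key : 2 * n * H + S ≤ n ^ 2 * E / p + N * L3 / 2 + (L6 + 2) * cnt + 2 * N * Λ) :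
    2 * n * H + S ≤ 10 * N ^ 2 + 10 * n ^ 2 * E + 10 * N * (1 + Ln + Λ) := by
  have b0 : 0 ≤ n ^ 2 * E := by positivity
  have b1 : n ^ 2 * E / p ≤ 10 * (n ^ 2 * E) := by
    rw [div_le_iff₀ (by linarith)]
    nlinarith
  have b2 : N * L3 ≤ N * (2 + Ln) := by gcongr
  have b3 : (L6 + 2) * cnt ≤ 7 * cnt := by gcongr; linarith
  have b4 : 0 ≤ N * Ln := by positivity
  have b5 : 0 ≤ N * Λ := by positivity
  nlinarith [sq_nonneg N]

lemma alg1 {n N E L6 L3 cnt S Λ H p : ℝ} (hn0 : 0 < n) (hp : 0 < p)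
    (hmain : 2 * p * H ≤ n * E + (N * (2 * p * L3) +
        2 * ((2 * p * L6 + 4 * p) * cnt - 2 * p * S)) / (4 * n) + 2 * p * N * Λ / n) :
    2 * n * H + S ≤ n ^ 2 * E / p + N * L3 / 2 + (L6 + 2) * cnt + 2 * N * Λ := by
  have := mul_le_mul_of_nonneg_left hmain (show 0 ≤ (n : ℝ) / p by positivity)
  have e1 : (n : ℝ) / p * (2 * p * H) = 2 * n * H := by field_simp
  have e2 : (n : ℝ) / p * (n * E + (N * (2 * p * L3) +
      2 * ((2 * p * L6 + 4 * p) * cnt - 2 * p * S)) / (4 * n) + 2 * p * N * Λ / n) =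
      n ^ 2 * E / p + N * L3 / 2 + (L6 + 2) * cnt - S + 2 * N * Λ := by
    field_simp
    ring
  rw [e1, e2] at this
  linarith

end Coul

theorem stmt_B1 : Stmt_B1 := by
  refine ⟨10, by norm_num, ?_⟩
  intro h Λ n N z hh h0 hL hΛ hn hz hinj
  have hn0 : (0 : ℝ) < n := by exact_mod_cast (lt_of_lt_of_le Nat.zero_lt_one hn)
  have hn1 : (1 : ℝ) ≤ n := by exact_mod_cast hn
  have hmain := Coul.main_ineq hh h0 hL hn hz hinj
  rw [Coul.sum_symm] at hmain
  swap
  · intro i k
    by_cases hik : i = k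
    · subst hik; rfl
    · rw [if_neg hik, if_neg (Ne.symm hik), norm_sub_rev]
  simp only [if_true, Finset.sum_const, Finset.card_univ, Fintype.card_fin, nsmul_eq_mul] at hmain
  set S : ℝ := ∑ i, ∑ k ∈ Finset.univ.filter (fun k => i < k), Real.log ‖z i - z k‖ with hS
  set cnt : ℝ := ∑ i : Fin N, ∑ k ∈ Finset.univ.filter (fun k => i < k), (1 : ℝ) with hcnt
  have hsum : ∑ i, ∑ k ∈ Finset.univ.filter (fun k => i < k), (if i = k then 2 * π * Real.log (3 * n)
        else 2 * π * Real.log (6 / ‖z i - z k‖) + 4 * π) =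
        (2 * π * Real.log 6 + 4 * π) * cnt - 2 * π * S := by
    rw [hS, hcnt, Finset.mul_sum, Finset.mul_sum, ← Finset.sum_sub_distrib]
    apply Finset.sum_congr rfl
    intro i _
    rw [Finset.mul_sum, Finset.mul_sum, ← Finset.sum_sub_distrib]
    apply Finset.sum_congr rfl
    intro k hk
    have hik : i < k := (Finset.mem_filter.1 hk).2
    have hp : 0 < ‖z i - z k‖ := norm_pos_iff.2 (sub_ne_zero.2 (fun e => hik.ne (hinj e)))
    rw [if_neg hik.ne, Real.log_div (by norm_num) hp.ne']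
    ring
  rw [hsum] at hmain
  have hcnt_le : cnt ≤ (N : ℝ) ^ 2 := by
    rw [hcnt, sq]
    calc ∑ i : Fin N, ∑ k ∈ Finset.univ.filter (fun k => i < k), (1 : ℝ)
        ≤ ∑ i : Fin N, ∑ k : Fin N, (1 : ℝ) := by
          apply Finset.sum_le_sum; intro i _
          apply Finset.sum_le_sum_of_subset_of_nonneg (Finset.filter_subset _ _)
          intros; positivity
      _ = (N : ℝ) * N := by simp
  have hE0 : 0 ≤ dirE h := by
    unfold dirE
    apply integral_nonneg
    intro x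
    positivity
  have hlog6 : Real.log 6 ≤ 5 := by
    have := Real.log_le_sub_one_of_pos (show (0 : ℝ) < 6 by norm_num)
    linarith
  have hlog3 : Real.log (3 * n) ≤ 2 + Real.log n := by
    rw [Real.log_mul (by norm_num) hn0.ne']
    have := Real.log_le_sub_one_of_pos (show (0 : ℝ) < 3 by norm_num)
    linarith
  have hlogn : 0 ≤ Real.log n := Real.log_nonneg hn1
  have hpi : 0 < π := Real.pi_pos
  have hpi3 : 3 < π := Real.pi_gt_three
  set H : ℝ := ∑ i, h (z i) with hH
  -- multiply by n / π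
  have key : 2 * n * H + S ≤ n ^ 2 * dirE h / π + N * Real.log (3 * n) / 2
      + (Real.log 6 + 2) * cnt + 2 * N * Λ := by
    exact Coul.alg1 hn0 hpi hmain
  have hcnt0 : 0 ≤ cnt :=
    Finset.sum_nonneg fun i _ => Finset.sum_nonneg fun k _ => zero_le_one
  exact Coul.alg2 (Nat.cast_nonneg N) hE0 hpi3 hlog6 hlog3 hlogn
    hcnt_le hcnt0 hΛ key

end CMA
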